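import Mathlib

namespace Pool.Agent.Results.MP_a3f2aa_co.Interpolation

variable {V : Type*} (G : SimpleGraph V)

def Dominating (D : Set V) : Prop := ∀ v, v ∉ D → ∃ w ∈ D, G.Adj v w

def Indivisible (D : Set V) : Prop :=
  Dominating G D ∧ ¬ ∃ A B : Set V, D = A ∪ B ∧ Disjoint A B ∧ A.Nonempty ∧ B.Nonempty ∧
    Dominating G A ∧ Dominating G B

/-- `V` splits into `k` classes (the fibres of `c`, all nonempty), each dominating. -/
def DomPart (k : ℕ) : Prop :=
  ∃ c : V → Fin k, Function.Surjective c ∧ ∀ i, Dominating G (c ⁻¹' {i})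

/-- `V` splits into `k` classes, each an indivisible dominating set. -/
def IndPart (k : ℕ) : Prop :=
  ∃ c : V → Fin k, Function.Surjective c ∧ ∀ i, Indivisible G (c ⁻¹' {i})

noncomputable def domatic : ℕ := sSup {k | DomPart G k}

noncomputable def adomatic : ℕ := sInf {k | IndPart G k}

variable {G}

lemma mono {A B : Set V} (h : A ⊆ B) (hA : Dominating G A) : Dominating G B := by
  intro v hv
  obtain ⟨w, hw, e⟩ := hA v (fun h' => hv (h h'))
  exact ⟨w, h hw, e⟩

lemma ne [Nonempty V] {A : Set V} (hA : Dominating G A) : A.Nonempty := by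
  by_contra h
  rw [Set.not_nonempty_iff_eq_empty] at h
  subst h
  obtain ⟨w, hw, -⟩ := hA (Classical.arbitrary V) (by simp)
  exact hw

lemma surj [Nonempty V] {k : ℕ} {c : V → Fin k} (h : ∀ i, Dominating G (c ⁻¹' {i})) :
    Function.Surjective c := fun i => ne (h i)

lemma key [Finite V] [Nonempty V] {a k : ℕ} (hak : a ≤ k) (ha : IndPart G a) (hk : DomPart G k) :
    IndPart G k := by
  classical
  have := Fintype.ofFinite V
  obtain ⟨p, -, hp⟩ := ha
  let S : Finset (V → Fin k) := Finset.univ.filter fun c => ∀ i, Dominating G (c ⁻¹' {i})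
  have hS : S.Nonempty := by
    obtain ⟨c, -, hc⟩ := hk
    exact ⟨c, by simpa [S] using hc⟩
  obtain ⟨c, hc, hmax⟩ := S.exists_max_image
    (fun c => (Finset.univ.filter fun v => c v = Fin.castLE hak (p v)).card) hS
  have hc' : ∀ i, Dominating G (c ⁻¹' {i}) := by simpa [S] using hc
  refine ⟨c, surj hc', fun i => ⟨hc' i, ?_⟩⟩
  rintro ⟨A, B, hAB, hd, hA, hB, dA, dB⟩
  have agree : ∀ v, c v = i → c v = Fin.castLE hak (p v) := by
    intro v hv
    by_contra hne
    have hcrit : Dominating G (c ⁻¹' {i} \ {v}) := by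
      by_cases hvA : v ∈ A
      · refine mono ?_ dB
        intro w hw
        exact ⟨by rw [hAB]; exact Or.inr hw, fun e => Set.disjoint_left.1 hd hvA (e ▸ hw)⟩
      · refine mono ?_ dA
        intro w hw
        exact ⟨by rw [hAB]; exact Or.inl hw, fun e => hvA (e ▸ hw)⟩
    let c' := Function.update c v (Fin.castLE hak (p v))
    have h1 : c' ∈ S := by
      simp only [S, Finset.mem_filter, Finset.mem_univ, true_and]
      intro j
      by_cases e : j = i
      · subst e
        refine mono ?_ hcrit
        rintro w ⟨hw, hwv⟩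
        simp only [Set.mem_preimage, Set.mem_singleton_iff, c'] at hw hwv ⊢
        rwa [Function.update_of_ne hwv]
      · refine mono ?_ (hc' j)
        intro w hw
        simp only [Set.mem_preimage, Set.mem_singleton_iff, c'] at hw ⊢
        rwa [Function.update_of_ne]
        rintro rfl
        exact e (hw.symm.trans hv)
    refine absurd (hmax c' h1) (not_le.2 (Finset.card_lt_card ⟨?_, ?_⟩))
    · intro w hw
      simp only [Finset.mem_filter, Finset.mem_univ, true_and, c'] at hw ⊢
      by_cases e : w = v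
      · subst e; simp
      · rwa [Function.update_of_ne e]
    · intro hsub
      have := hsub (x := v) (by simp [c'])
      exact hne (by simpa using this)
  obtain ⟨v, hv⟩ := hA
  have hv' : c v = i := by
    have : v ∈ c ⁻¹' {i} := by rw [hAB]; exact Or.inl hv
    exact this
  have sub : c ⁻¹' {i} ⊆ p ⁻¹' {p v} := by
    intro w hw
    have h1 := agree w hw
    have h2 := agree v hv'
    rw [show c w = i from hw] at h1
    rw [hv'] at h2
    exact Fin.castLE_injective hak (h1.symm.trans h2)
  refine (hp (p v)).2 ⟨A, p ⁻¹' {p v} \ A, ?_, Set.disjoint_sdiff_right, ⟨v, hv⟩, ?_, dA, ?_⟩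
  · rw [Set.union_sdiff_cancel]
    exact fun w hw => sub (by rw [hAB]; exact Or.inl hw)
  · obtain ⟨w, hw⟩ := hB
    exact ⟨w, sub (by rw [hAB]; exact Or.inr hw), Set.disjoint_right.1 hd hw⟩
  · exact mono (fun w hw => ⟨sub (by rw [hAB]; exact Or.inr hw), Set.disjoint_right.1 hd hw⟩) dB

theorem result (V : Type*) [Finite V] [Nonempty V] (G : SimpleGraph V) (k : ℕ)
    (h1 : adomatic G ≤ k) (h2 : k ≤ domatic G) : IndPart G k := by
  classical
  have hb : BddAbove {k | DomPart G k} := ⟨Nat.card V, by
    rintro k ⟨c, hc, -⟩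
    simpa using Nat.card_le_card_of_surjective c hc⟩
  have hone : DomPart G 1 := by
    have : ∀ i : Fin 1, Dominating G ((fun _ : V => (0 : Fin 1)) ⁻¹' {i}) := by
      intro i v hv
      exact absurd (Subsingleton.elim _ _) hv
    exact ⟨_, surj this, this⟩
  have hd : DomPart G (domatic G) := Nat.sSup_mem (s := {k | DomPart G k}) ⟨1, hone⟩ hb
  have hi : IndPart G (domatic G) := by
    obtain ⟨c, hc, hc'⟩ := hd
    refine ⟨c, hc, fun i => ⟨hc' i, ?_⟩⟩
    rintro ⟨A, B, hAB, hdis, -, -, dA, dB⟩
    let c' : V → Fin (domatic G + 1) := fun v => if v ∈ A then Fin.last _ else (c v).castSucc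
    have : ∀ j, Dominating G (c' ⁻¹' {j}) := by
      intro j
      refine Fin.lastCases ?_ (fun j => ?_) j
      · exact mono (fun w hw => by simp [c', hw]) dA
      · by_cases e : j = i
        · subst e
          refine mono (fun w hw => ?_) dB
          have h1 : w ∈ c ⁻¹' {j} := by rw [hAB]; exact Or.inr hw
          simpa [c', Set.disjoint_right.1 hdis hw] using h1
        · refine mono (fun w hw => ?_) (hc' j)
          have : w ∉ A := fun hA => by
            have h1 : w ∈ c ⁻¹' {i} := by rw [hAB]; exact Or.inl hA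
            exact e ((show c w = j from hw).symm.trans h1)
          simpa [c', this] using hw
    have := le_csSup hb (show DomPart G (domatic G + 1) from ⟨c', surj this, this⟩)
    exact absurd this (by simp [domatic])
  have ha : IndPart G (adomatic G) := Nat.sInf_mem (s := {k | IndPart G k}) ⟨_, hi⟩
  refine key h1 ha ?_
  have hpos : 0 < k := by
    obtain ⟨c, -, -⟩ := ha
    have := (c (Classical.arbitrary V)).pos
    omega
  obtain ⟨c, -, hc⟩ := hd
  let c' : V → Fin k := fun v => ⟨min (c v) (k - 1), by omega⟩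
  have : ∀ j, Dominating G (c' ⁻¹' {j}) := by
    intro j
    refine mono (fun w hw => ?_) (hc ⟨j, by omega⟩)
    have : (c w : ℕ) = j := congrArg Fin.val (show c w = ⟨j, by omega⟩ from hw)
    apply Fin.ext
    simp only [c']
    omega
  exact ⟨c', surj this, this⟩

end Pool.Agent.Results.MP_a3f2aa_co.Interpolation
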